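import Mathlib.Analysis.Convex.Hull
import Mathlib.Data.Real.Basic
import Mathlib.LinearAlgebra.Dual.Lemmas
import Mathlib.Algebra.Group.Subgroup.Lattice
import Mathlib.Algebra.Order.BigOperators.Group.Finset
import Mathlib.Algebra.BigOperators.Pi
import Mathlib.LinearAlgebra.Pi
import Mathlib.Tactic.Linarith
import Mathlib.Tactic.Ring

/-!
MP_b8ee47_co.  Every tropical polynomial in any number of variables is a tropical quotient of
two products of units.
-/

namespace Pool.Agent.Results.MP_b8ee47_co.RationalFactorization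

variable {n : ℕ}

/-- The affine function `x ↦ c_a + a·x` (classical operations). -/
def affine (c : (Fin n → ℕ) → ℝ) (a : Fin n → ℕ) (x : Fin n → ℝ) : ℝ :=
  c a + ∑ i, (a i : ℝ) * x i

/-- The tropical polynomial `x ↦ max_{a ∈ A} (c_a + a·x)`. -/
noncomputable def tropEval (A : Finset (Fin n → ℕ)) (hA : A.Nonempty) (c : (Fin n → ℕ) → ℝ)
    (x : Fin n → ℝ) : ℝ := A.sup' hA (fun a => affine c a x)

/-- `f` is a tropical polynomial in `n` variables. -/
def IsTropicalPolynomial (f : (Fin n → ℝ) → ℝ) : Prop :=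
  ∃ (A : Finset (Fin n → ℕ)) (hA : A.Nonempty) (c : (Fin n → ℕ) → ℝ), f = tropEval A hA c

/-- Exponent vectors as points of `ℝ^n`. -/
def emb (a : Fin n → ℕ) : Fin n → ℝ := fun i => (a i : ℝ)

/-- `f` is a unit: it is a tropical polynomial `max_{a ∈ A} (c_a + a·x)` whose regular
subdivision is trivial, i.e. some lower face of `conv {(a, -c_a)}` projects onto the whole Newton
polytope `conv A`.  (The lower face in direction `p` consists of the points with
`c_a + a·p = f(p)`.) -/
def IsTropicalUnit (f : (Fin n → ℝ) → ℝ) : Prop :=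
  ∃ (A : Finset (Fin n → ℕ)) (hA : A.Nonempty) (c : (Fin n → ℕ) → ℝ), f = tropEval A hA c ∧
    ∃ p : Fin n → ℝ, convexHull ℝ (emb '' {a | a ∈ A ∧ affine c a p = f p}) =
      convexHull ℝ (emb '' {a | a ∈ A})

/-- `g` is a finite tropical product (i.e. classical sum) of units. -/
def IsProductOfUnits (g : (Fin n → ℝ) → ℝ) : Prop :=
  ∃ l : List ((Fin n → ℝ) → ℝ), (∀ u ∈ l, IsTropicalUnit u) ∧ g = l.sum

/-- `f` is rationally factorizable: `f ⊙ g = h` with `g`, `h` finite products of units. -/
def IsRationallyFactorizable (f : (Fin n → ℝ) → ℝ) : Prop :=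
  ∃ g h : (Fin n → ℝ) → ℝ, IsProductOfUnits g ∧ IsProductOfUnits h ∧ f + g = h

/-- the max over a possibly empty set -/
noncomputable def mx (c : (Fin n → ℕ) → ℝ) (I : Finset (Fin n → ℕ)) (x : Fin n → ℝ) : ℝ :=
  if h : I.Nonempty then I.sup' h (fun a => affine c a x) else 0

theorem mx_eq (c : (Fin n → ℕ) → ℝ) (I : Finset (Fin n → ℕ)) (h : I.Nonempty) :
    mx c I = tropEval I h c := by
  funext x; simp [mx, tropEval, h]

theorem le_mx (c : (Fin n → ℕ) → ℝ) (I : Finset (Fin n → ℕ)) (x : Fin n → ℝ)
    (a : Fin n → ℕ) (ha : a ∈ I) : affine c a x ≤ mx c I x := by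
  have h : I.Nonempty := ⟨a, ha⟩
  rw [mx, dif_pos h]
  exact Finset.le_sup' (fun a => affine c a x) ha

/-- adding an index that does not contribute -/
theorem mx_insert (c : (Fin n → ℕ) → ℝ) [DecidableEq (Fin n → ℕ)] (I : Finset (Fin n → ℕ))
    (x : Fin n → ℝ) (j a : Fin n → ℕ) (ha : a ∈ I) (h : affine c j x ≤ affine c a x) :
    mx c (insert j I) x = mx c I x := by
  have h1 : I.Nonempty := ⟨a, ha⟩
  have h2 : (insert j I).Nonempty := ⟨a, Finset.mem_insert_of_mem ha⟩
  rw [mx, dif_pos h2, Finset.sup'_insert]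
  rw [mx, dif_pos h1]
  exact max_eq_right (h.trans (Finset.le_sup' (fun a => affine c a x) ha))

/-- the group generated by the units -/
def G (n : ℕ) : AddSubgroup ((Fin n → ℝ) → ℝ) := AddSubgroup.closure {u | IsTropicalUnit u}

/-- alternating sum identity -/
theorem alternating (c : (Fin n → ℕ) → ℝ) [DecidableEq (Fin n → ℕ)] (B C : Finset (Fin n → ℕ))
    (h : ∀ x, ∃ j ∈ C, ∃ a ∈ B, affine c j x ≤ affine c a x) :
    ∑ S ∈ C.powerset, (-1 : ℤ) ^ S.card • mx c (B ∪ S) = 0 := by
  funext x
  obtain ⟨j, hj, a, ha, hja⟩ := h x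
  rw [Finset.sum_apply]
  simp only [Pi.smul_apply, Pi.zero_apply]
  refine Finset.sum_involution (fun S _ => if j ∈ S then S.erase j else insert j S) ?_ ?_ ?_ ?_
  · intro S _
    by_cases hS : j ∈ S
    · simp only [hS, if_true]
      have hc : S.card = (S.erase j).card + 1 := (Finset.card_erase_add_one hS).symm
      have he : B ∪ S = insert j (B ∪ S.erase j) := by
        rw [← Finset.union_insert, Finset.insert_erase hS]
      rw [he, mx_insert c _ x j a (Finset.mem_union_left _ ha) hja, hc, pow_succ]
      simp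
    · simp only [hS, if_false]
      have he : B ∪ insert j S = insert j (B ∪ S) := by rw [Finset.union_insert]
      rw [he, mx_insert c _ x j a (Finset.mem_union_left _ ha) hja,
        Finset.card_insert_of_notMem hS, pow_succ]
      simp
  · intro S _ _ hcon
    by_cases hS : j ∈ S
    · simp only [hS, if_true] at hcon
      have := Finset.notMem_erase j S
      rw [hcon] at this
      exact this hS
    · simp only [hS, if_false] at hcon
      have := Finset.mem_insert_self j S
      rw [hcon] at this
      exact hS this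
  · intro S hS
    rw [Finset.mem_powerset] at hS ⊢
    by_cases hjS : j ∈ S
    · simp only [hjS, if_true]
      exact (Finset.erase_subset _ _).trans hS
    · simp only [hjS, if_false]
      exact Finset.insert_subset hj hS
  · intro S _
    by_cases hjS : j ∈ S
    · simp [hjS, Finset.insert_erase]
    · simp [hjS]

/-- either all the affine functions meet in a point, or there is a nontrivial affine relation
between the exponents -/
theorem dichotomy (c : (Fin n → ℕ) → ℝ) (I : Finset (Fin n → ℕ)) :
    (∃ (p : Fin n → ℝ) (γ : ℝ), ∀ a ∈ I, affine c a p = γ) ∨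
    ∃ w : (Fin n → ℕ) → ℝ, (∃ a ∈ I, w a ≠ 0) ∧ ∑ a ∈ I, w a = 0 ∧
      ∀ i, ∑ a ∈ I, w a * (a i : ℝ) = 0 := by
  classical
  let T : ((Fin n → ℝ) × ℝ) →ₗ[ℝ] (I → ℝ) :=
    { toFun := fun q a => q.2 - ∑ i, (a.1 i : ℝ) * q.1 i
      map_add' := by
        intro q r; funext a
        simp only [Prod.snd_add, Prod.fst_add, Pi.add_apply, mul_add, Finset.sum_add_distrib]
        ring
      map_smul' := by
        intro t q; funext a
        simp only [Prod.smul_snd, Prod.smul_fst, Pi.smul_apply, smul_eq_mul, RingHom.id_apply,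
          mul_sub, Finset.mul_sum]
        congr 1
        exact Finset.sum_congr rfl (fun i _ => by ring) }
  by_cases hT : (fun a : I => c a.1) ∈ LinearMap.range T
  · left
    obtain ⟨q, hq⟩ := hT
    refine ⟨q.1, q.2, fun a ha => ?_⟩
    have := congrFun hq ⟨a, ha⟩
    simp only [T, LinearMap.coe_mk, AddHom.coe_mk] at this
    unfold affine
    rw [← this]; ring
  · right
    have hlt : LinearMap.range T < ⊤ := by
      rw [lt_top_iff_ne_top]
      intro h
      exact hT (by rw [h]; trivial)
    obtain ⟨f, hf0, hf⟩ := Submodule.exists_le_ker_of_lt_top _ hlt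
    have hfT : ∀ q, f (T q) = 0 := fun q => hf ⟨q, rfl⟩
    have hexp : ∀ v : I → ℝ, f v = ∑ a : I, v a * f (Pi.single a 1) := by
      intro v
      conv_lhs => rw [← Finset.univ_sum_single v]
      rw [map_sum]
      refine Finset.sum_congr rfl (fun a _ => ?_)
      have : (Pi.single a (v a) : I → ℝ) = v a • Pi.single a 1 := by
        rw [← Pi.single_smul, smul_eq_mul, mul_one]
      rw [this, map_smul, smul_eq_mul]
    let w : (Fin n → ℕ) → ℝ := fun a => if h : a ∈ I then f (Pi.single ⟨a, h⟩ 1) else 0
    have hw : ∀ a : I, w a.1 = f (Pi.single a 1) := by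
      intro a; simp [w]
    refine ⟨w, ?_, ?_, ?_⟩
    · by_contra hcon
      push Not at hcon
      apply hf0
      ext a
      simp only [LinearMap.coe_comp, LinearMap.coe_single, Function.comp_apply,
        LinearMap.zero_apply]
      rw [← hw a]
      exact hcon a.1 a.2
    · have h1 := hfT (0, 1)
      rw [hexp] at h1
      have e1 : ∀ a : I, T (0, 1) a = 1 := by intro a; simp [T]
      simp only [e1, one_mul] at h1
      rw [← Finset.sum_coe_sort I w]
      rw [← h1]
      exact Finset.sum_congr rfl (fun a _ => hw a)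
    · intro i
      have h1 := hfT (Pi.single i 1, 0)
      rw [hexp] at h1
      have e1 : ∀ a : I, T (Pi.single i 1, 0) a = - (a.1 i : ℝ) := by
        intro a
        simp only [T, LinearMap.coe_mk, AddHom.coe_mk, Pi.single_apply, mul_ite, mul_one,
          mul_zero, Finset.sum_ite_eq', Finset.mem_univ, if_true, zero_sub]
      simp only [e1] at h1
      rw [← Finset.sum_coe_sort I (fun a => w a * (a i : ℝ))]
      have h2 : ∑ a : I, w a.1 * (a.1 i : ℝ) = - ∑ a : I, -(a.1 i : ℝ) * f (Pi.single a 1) := by
        rw [← Finset.sum_neg_distrib]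
        exact Finset.sum_congr rfl (fun a _ => by rw [hw a]; ring)
      rw [h2, h1, neg_zero]

/-- weighted averages: if `∑ w_a ℓ_a ≥ 0` constantly, the negative part has an element below
some element of the positive part -/
theorem exists_le (c : (Fin n → ℕ) → ℝ) (I : Finset (Fin n → ℕ)) (w : (Fin n → ℕ) → ℝ)
    (h0 : ∃ a ∈ I, w a ≠ 0) (h1 : ∑ a ∈ I, w a = 0)
    (h2 : ∀ i, ∑ a ∈ I, w a * (a i : ℝ) = 0) (hκ : 0 ≤ ∑ a ∈ I, w a * c a) (x : Fin n → ℝ) :
    ∃ j ∈ I.filter (fun a => w a < 0), ∃ a ∈ I.filter (fun a => 0 ≤ w a),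
      affine c j x ≤ affine c a x := by
  classical
  by_contra hcon
  push Not at hcon
  -- choose the value of some element as threshold
  have hsum : ∑ a ∈ I, w a * affine c a x = ∑ a ∈ I, w a * c a := by
    have e : ∀ a, w a * affine c a x = w a * c a + ∑ i, (w a * (a i : ℝ)) * x i := by
      intro a
      unfold affine
      rw [mul_add, Finset.mul_sum]
      congr 1
      exact Finset.sum_congr rfl (fun i _ => by ring)
    rw [Finset.sum_congr rfl (fun a _ => e a), Finset.sum_add_distrib, Finset.sum_comm]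
    have : ∑ i, ∑ a ∈ I, w a * (a i : ℝ) * x i = 0 := by
      refine Finset.sum_eq_zero (fun i _ => ?_)
      rw [← Finset.sum_mul, h2 i, zero_mul]
    rw [this, add_zero]
  have hpos : ∃ a ∈ I, 0 < w a := by
    by_contra hp
    push Not at hp
    obtain ⟨a, ha, hne⟩ := h0
    have := (Finset.sum_eq_zero_iff_of_nonpos hp).1 h1 a ha
    exact hne this
  obtain ⟨a0, ha0, hwa0⟩ := hpos
  have hne : (I.filter (fun a => 0 ≤ w a)).Nonempty := ⟨a0, by simp [ha0, hwa0.le]⟩
  obtain ⟨b, hb, hbmax⟩ := Finset.exists_max_image _ (fun a => affine c a x) hne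
  have hneg : ∃ j ∈ I, w j < 0 := by
    by_contra hp
    push Not at hp
    have := (Finset.sum_eq_zero_iff_of_nonneg hp).1 h1 a0 ha0
    exact hwa0.ne' this
  obtain ⟨j0, hj0, hwj0⟩ := hneg
  have hlt : ∑ a ∈ I, w a * affine c a x < ∑ a ∈ I, w a * affine c b x := by
    refine Finset.sum_lt_sum ?_ ?_
    · intro a ha
      by_cases hwa : w a < 0
      · have := hcon a (by simp [ha, hwa]) b hb
        nlinarith
      · push Not at hwa
        have := hbmax a (by simp [ha, hwa])
        nlinarith
    · refine ⟨j0, hj0, ?_⟩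
      have := hcon j0 (by simp [hj0, hwj0]) b hb
      nlinarith
  rw [hsum, ← Finset.sum_mul, h1, zero_mul] at hlt
  linarith

theorem mx_mem (c : (Fin n → ℕ) → ℝ) (I : Finset (Fin n → ℕ)) (hI : I.Nonempty) :
    mx c I ∈ G n := by
  classical
  induction I using Finset.strongInduction with
  | H I ih =>
    rcases dichotomy c I with ⟨p, γ, hp⟩ | ⟨w, h0, h1, h2⟩
    · -- a unit
      apply AddSubgroup.subset_closure
      refine ⟨I, hI, c, mx_eq c I hI, p, ?_⟩
      have hval : mx c I p = γ := by
        rw [mx, dif_pos hI]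
        rw [Finset.sup'_congr hI rfl (fun a ha => hp a ha)]
        exact Finset.sup'_const hI γ
      have : {a | a ∈ I ∧ affine c a p = mx c I p} = {a | a ∈ I} := by
        ext a
        simp only [Set.mem_ofPred_eq, and_iff_left_iff_imp]
        intro ha
        rw [hval, hp a ha]
      rw [this]
    · -- a reduction
      have main : ∀ w : (Fin n → ℕ) → ℝ, (∃ a ∈ I, w a ≠ 0) → ∑ a ∈ I, w a = 0 →
          (∀ i, ∑ a ∈ I, w a * (a i : ℝ) = 0) → 0 ≤ ∑ a ∈ I, w a * c a → mx c I ∈ G n := by
        intro w h0 h1 h2 hκ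
        set C := I.filter (fun a => w a < 0) with hC
        set B := I.filter (fun a => 0 ≤ w a) with hB
        have hBC : B ∪ C = I := by
          ext a
          simp only [hB, hC, Finset.mem_union, Finset.mem_filter]
          constructor
          · rintro (h | h) <;> exact h.1
          · intro h
            rcases lt_or_ge (w a) 0 with h' | h'
            · exact Or.inr ⟨h, h'⟩
            · exact Or.inl ⟨h, h'⟩
        have hdisj : Disjoint B C := by
          rw [Finset.disjoint_left]
          intro a ha hc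
          exact absurd (Finset.mem_filter.1 hc).2 (not_lt.2 (Finset.mem_filter.1 ha).2)
        have halt := alternating c B C (exists_le c I w h0 h1 h2 hκ)
        obtain ⟨j, _, a, haB, _⟩ := exists_le c I w h0 h1 h2 hκ 0
        have hmem : C ∈ C.powerset := Finset.mem_powerset_self C
        rw [← Finset.add_sum_erase _ _ hmem, hBC] at halt
        have hrest : ∑ S ∈ C.powerset.erase C, (-1 : ℤ) ^ S.card • mx c (B ∪ S) ∈ G n := by
          refine AddSubgroup.sum_mem _ (fun S hS => AddSubgroup.zsmul_mem _ ?_ _)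
          rw [Finset.mem_erase, Finset.mem_powerset] at hS
          have hss : S ⊂ C := lt_of_le_of_ne hS.2 hS.1
          obtain ⟨z, hzC, hzS⟩ := Finset.exists_of_ssubset hss
          refine ih (B ∪ S) ?_ ⟨a, Finset.mem_union_left _ haB⟩
          rw [Finset.ssubset_iff_of_subset]
          · refine ⟨z, (Finset.mem_filter.1 hzC).1, ?_⟩
            rw [Finset.mem_union]
            rintro (hz | hz)
            · exact (Finset.disjoint_left.1 hdisj hz) hzC
            · exact hzS hz
          · exact Finset.union_subset (Finset.filter_subset _ _)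
              (hS.2.trans (Finset.filter_subset _ _))
        have hsm : (-1 : ℤ) ^ C.card • mx c I ∈ G n := by
          have : (-1 : ℤ) ^ C.card • mx c I =
              -∑ S ∈ C.powerset.erase C, (-1 : ℤ) ^ S.card • mx c (B ∪ S) :=
            eq_neg_of_add_eq_zero_left halt
          rw [this]
          exact AddSubgroup.neg_mem _ hrest
        have h3 := AddSubgroup.zsmul_mem _ hsm ((-1 : ℤ) ^ C.card)
        rw [smul_smul, ← pow_add, ← two_mul, pow_mul] at h3
        simpa using h3
      rcases le_total 0 (∑ a ∈ I, w a * c a) with hκ | hκ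
      · exact main w h0 h1 h2 hκ
      · refine main (fun a => - w a) ?_ ?_ ?_ ?_
        · obtain ⟨a, ha, hne⟩ := h0
          exact ⟨a, ha, neg_ne_zero.2 hne⟩
        · rw [Finset.sum_neg_distrib, h1, neg_zero]
        · intro i
          simp only [neg_mul]
          rw [Finset.sum_neg_distrib, h2 i, neg_zero]
        · simp only [neg_mul]
          rw [Finset.sum_neg_distrib]
          linarith

theorem quotient_of_mem {f : (Fin n → ℝ) → ℝ} (hf : f ∈ G n) : IsRationallyFactorizable f := by
  induction hf using AddSubgroup.closure_induction with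
  | mem x hx => exact ⟨0, x, ⟨[], by simp, by simp⟩, ⟨[x], by simpa using hx, by simp⟩, by simp⟩
  | zero => exact ⟨0, 0, ⟨[], by simp, by simp⟩, ⟨[], by simp, by simp⟩, by simp⟩
  | add x y _ _ hx hy =>
    obtain ⟨g1, k1, ⟨l1, hl1, rfl⟩, ⟨m1, hm1, rfl⟩, e1⟩ := hx
    obtain ⟨g2, k2, ⟨l2, hl2, rfl⟩, ⟨m2, hm2, rfl⟩, e2⟩ := hy
    refine ⟨l1.sum + l2.sum, m1.sum + m2.sum, ⟨l1 ++ l2, ?_, by simp⟩, ⟨m1 ++ m2, ?_, by simp⟩, ?_⟩
    · intro u hu
      rcases List.mem_append.1 hu with h | h
      · exact hl1 u h
      · exact hl2 u h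
    · intro u hu
      rcases List.mem_append.1 hu with h | h
      · exact hm1 u h
      · exact hm2 u h
    · rw [← e1, ← e2]; abel
  | neg x _ hx =>
    obtain ⟨g, k, hg, hk, e⟩ := hx
    refine ⟨k, g, hk, hg, ?_⟩
    rw [← e]; abel

/-- **Q1 (positive answer).** For every `n`, every tropical polynomial in `n` variables is
rationally factorizable. -/
theorem result (n : ℕ) (f : (Fin n → ℝ) → ℝ) (hf : IsTropicalPolynomial f) :
    IsRationallyFactorizable f := by
  obtain ⟨A, hA, c, rfl⟩ := hf
  rw [← mx_eq c A hA]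
  exact quotient_of_mem (mx_mem c A hA)

end Pool.Agent.Results.MP_b8ee47_co.RationalFactorization
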